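import Pool.Agent.H29.LA.Targets

set_option autoImplicit false

open Pool.Agent.H29.LA

namespace Pool.Agent.H82.LA

theorem pf_AVG : T_AVG := by
  classical
  intro Z _ A _ ψ O n H hn htr hO
  have : Fintype H := Fintype.ofFinite H
  have hS : ∀ z z' : Z, ∑ h : H, ψ ((h : Equiv.Perm Z) z) = ∑ h : H, ψ ((h : Equiv.Perm Z) z') := by
    intro z z'
    obtain ⟨h1, hh1, he⟩ := htr z z'
    refine (Fintype.sum_equiv (Equiv.mulRight (⟨h1, hh1⟩ : H)) _ _ ?_).symm
    intro h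
    rw [← he]
    rfl
  have hZ : ∀ z : Z, Fintype.card Z • ∑ h : H, ψ ((h : Equiv.Perm Z) z) =
      Fintype.card H • ∑ z, ψ z := by
    intro z
    have h1 : ∑ z' : Z, ∑ h : H, ψ ((h : Equiv.Perm Z) z') =
        Fintype.card Z • ∑ h : H, ψ ((h : Equiv.Perm Z) z) := by
      rw [Finset.sum_congr rfl (fun z' _ => hS z' z), Finset.sum_const, Finset.card_univ]
    rw [← h1, Finset.sum_comm]
    have h2 : ∀ h : H, ∑ z' : Z, ψ ((h : Equiv.Perm Z) z') = ∑ z', ψ z' := fun h =>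
      Equiv.sum_comp (h : Equiv.Perm Z) ψ
    rw [Finset.sum_congr rfl (fun h _ => h2 h), Finset.sum_const, Finset.card_univ]
  have h3 : Fintype.card Z • ∑ z ∈ O, ∑ h : H, ψ ((h : Equiv.Perm Z) z) =
      O.card • (Fintype.card H • ∑ z, ψ z) := by
    rw [Finset.smul_sum, Finset.sum_congr rfl (fun z _ => hZ z), Finset.sum_const]
  have h4 : n • ∑ z ∈ O, ∑ h : H, ψ ((h : Equiv.Perm Z) z) =
      Fintype.card H • (n • ∑ z ∈ O, ψ z) := by
    have h7 : ∀ h : H, n • ∑ z ∈ O, ψ ((h : Equiv.Perm Z) z) = n • ∑ z ∈ O, ψ z := fun h =>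
      hO (h : Equiv.Perm Z) h.2
    rw [Finset.sum_comm, Finset.smul_sum, Finset.sum_congr rfl (fun h _ => h7 h),
      Finset.sum_const, Finset.card_univ]
  refine ⟨n * Fintype.card H, mul_ne_zero hn Fintype.card_ne_zero, ?_⟩
  have h5 : n • (Fintype.card Z • ∑ z ∈ O, ∑ h : H, ψ ((h : Equiv.Perm Z) z)) =
      n • (O.card • (Fintype.card H • ∑ z, ψ z)) := by rw [h3]
  have h6 : n • (Fintype.card Z • ∑ z ∈ O, ∑ h : H, ψ ((h : Equiv.Perm Z) z)) =
      Fintype.card Z • (Fintype.card H • (n • ∑ z ∈ O, ψ z)) := by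
    rw [smul_comm, h4]
  rw [h6] at h5
  calc (n * Fintype.card H) • (Fintype.card Z • ∑ z ∈ O, ψ z)
      = Fintype.card Z • (Fintype.card H • (n • ∑ z ∈ O, ψ z)) := by
        simp only [smul_smul]; congr 1; ring
    _ = n • (O.card • (Fintype.card H • ∑ z, ψ z)) := h5
    _ = (n * Fintype.card H) • (O.card • ∑ z, ψ z) := by
        simp only [smul_smul]; congr 1; ring

end Pool.Agent.H82.LA
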